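import Pool.Agent.helper12.OB.SpecC

set_option autoImplicit false

namespace Pool.Agent.OB

open Pool.Agent.helper58.DC Pool.Agent.DI Pool.Agent.GR

/-- row ob:CHM -/
theorem CHM (hODV : ODV_stmt) (hNM : NM_stmt) (hSN : SN_stmt) : CHM_stmt := by
  classical
  intro p M hS G _ _ R hR hinv
  have hp : p.Prime := hS.pr
  -- the action on the radical chains
  let act : G →* Equiv.Perm {C : Finset (Subgroup G) // IsRadical p C} :=
    MonoidHom.toHomPerm
      { toFun := fun g C => ⟨chainMap (MulAut.conj g) C.1, (hNM G (MulAut.conj g) C.1).2.2.2.2.2.2 p C.2⟩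
        map_one' := by
          funext C
          refine Subtype.ext ?_
          show chainMap (MulAut.conj (1 : G)) C.1 = C.1
          rw [map_one]
          exact (hNM G 1 C.1).2.2.2.2.2.1
        map_mul' := fun g h => by
          funext C
          refine Subtype.ext ?_
          show chainMap (MulAut.conj (g * h)) C.1 = chainMap (MulAut.conj g) (chainMap (MulAut.conj h) C.1)
          rw [map_mul]
          exact (hNM G (MulAut.conj g) C.1).2.2.2.2.1 (MulAut.conj h) }
  have hact : ∀ g C, (act g C).1 = chainMap (MulAut.conj g) C.1 := fun g C => rfl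
  let I : AddSubgroup ℂ :=
    { carrier := {w | InM M w}
      add_mem' := fun ha hb => InM.add hS ha hb
      zero_mem' := InM.zero hS
      neg_mem' := fun ha => InM.neg ha }
  let f : {C : Finset (Subgroup G) // IsRadical p C} → ℂ := fun C =>
    (-1) ^ (C.1.card + 1) * ((Nat.card (nrm C.1) : ℂ) * R C.1)
  have hf1 : ∀ n x, f (act n x) = f x := by
    intro n x
    show (-1) ^ ((chainMap (MulAut.conj n) x.1).card + 1) * ((Nat.card (nrm (chainMap (MulAut.conj n) x.1)) : ℂ) *
      R (chainMap (MulAut.conj n) x.1)) = (-1) ^ (x.1.card + 1) * ((Nat.card (nrm x.1) : ℂ) * R x.1)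
    rw [hinv n x.1 x.2, (hNM G (MulAut.conj n) x.1).2.2.1, (hNM G (MulAut.conj n) x.1).2.2.2.1]
    have h1 : Nat.card ((nrm x.1).map (MulAut.conj n).toMonoidHom) = Nat.card (nrm x.1) :=
      (Nat.card_congr ((nrm x.1).equivMapOfInjective _ (MulAut.conj n).injective).toEquiv).symm
    rw [h1]
  have hf2 : ∀ x, ∃ w ∈ I, f x = (pp p {n : G // act n x = x} : ℂ) * w := by
    intro x
    have h1 : Nat.card {n : G // act n x = x} = Nat.card (nrm x.1) := by
      refine Nat.card_congr (Equiv.subtypeEquivRight fun n => ?_)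
      rw [← hSN G x.1 x.2.chain n, Subtype.ext_iff, hact]
    have h2 : p ^ padicValNat p (Nat.card (nrm x.1)) ∣ Nat.card (nrm x.1) := pow_padicValNat_dvd
    obtain ⟨m, hm⟩ := h2
    refine ⟨(-1) ^ (x.1.card + 1) * ((m : ℂ) * R x.1), ?_, ?_⟩
    · have h3 : InM M ((m : ℂ) * R x.1) := InM.mul_left hS (IntAt.natCast hS m) (hR x.1 x.2)
      have h4 : IntAt M ((-1 : ℂ) ^ (x.1.card + 1)) := (IntAt.one hS).neg.pow hS _
      exact InM.mul_left hS h4 h3
    · show (-1) ^ (x.1.card + 1) * ((Nat.card (nrm x.1) : ℂ) * R x.1) = _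
      unfold pp
      rw [h1]
      have h5 : (Nat.card (nrm x.1) : ℂ) = ((p ^ padicValNat p (Nat.card (nrm x.1)) : ℕ) : ℂ) * (m : ℂ) := by
        exact_mod_cast hm
      conv_lhs => rw [h5]
      ring
  obtain ⟨w, hw, hw2⟩ := hODV p hp G {C : Finset (Subgroup G) // IsRadical p C} act I f hf1 hf2
  refine ⟨w, hw, ?_⟩
  rw [sub_zero, ← hw2]
  exact (finsum_set_coe_eq_finsum_mem {C : Finset (Subgroup G) | IsRadical p C}
    (f := fun C => (-1) ^ (C.card + 1) * ((Nat.card (nrm C) : ℂ) * R C))).symm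

end Pool.Agent.OB
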