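import Pool.Agent.helper12.OB.SpecC

set_option autoImplicit false

namespace Pool.Agent.OB

open Pool.Agent.helper58.DC Pool.Agent.DI Pool.Agent.GR

theorem CNJ_bij (hNM : NM_stmt) (hIF : IF_stmt) (G : Type) [Group G] [Finite G] (g : G) (C : Finset (Subgroup G)) :
    Set.BijOn (funMap (MulAut.conj g)) (IrrOn (nrm C)) (IrrOn (nrm (chainMap (MulAut.conj g) C))) := by
  have h1 : ∀ (α : MulAut G) (D : Finset (Subgroup G)), ∀ ψ ∈ IrrOn (nrm D), funMap α ψ ∈ IrrOn (nrm (chainMap α D)) := by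
    intro α D ψ hψ
    rw [(hNM G α D).2.2.2.1]
    exact ((hIF G (nrm D)).2 ψ hψ).2.2 α
  have h2 : ∀ (α : MulAut G) (ψ : G → ℂ), funMap α (funMap α⁻¹ ψ) = ψ := by
    intro α ψ
    funext x
    show ψ (α⁻¹⁻¹ (α⁻¹ x)) = ψ x
    rw [inv_inv, MulAut.apply_inv_self]
  have h3 : chainMap (MulAut.conj g)⁻¹ (chainMap (MulAut.conj g) C) = C := by
    rw [← (hNM G (MulAut.conj g)⁻¹ C).2.2.2.2.1 (MulAut.conj g), inv_mul_cancel]
    exact (hNM G 1 C).2.2.2.2.2.1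
  refine ⟨fun ψ hψ => h1 _ C ψ hψ, ?_, ?_⟩
  · intro ψ _ φ _ h
    have h4 : funMap (MulAut.conj g)⁻¹ (funMap (MulAut.conj g) ψ) = funMap (MulAut.conj g)⁻¹ (funMap (MulAut.conj g) φ) := by
      rw [h]
    have h5 := h2 (MulAut.conj g)⁻¹ ψ
    have h6 := h2 (MulAut.conj g)⁻¹ φ
    rw [inv_inv] at h5 h6
    rw [h5, h6] at h4
    exact h4
  · intro φ hφ
    refine ⟨funMap (MulAut.conj g)⁻¹ φ, ?_, h2 _ φ⟩
    have h4 := h1 (MulAut.conj g)⁻¹ (chainMap (MulAut.conj g) C) φ hφ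
    rwa [h3] at h4

theorem CNJ_cc (G : Type) [Group G] [Finite G] (g : G) (ψ f : G → ℂ) (hf : ∀ x y, f (y * x * y⁻¹) = f x) :
    cc (funMap (MulAut.conj g) ψ) f = cc ψ f := by
  unfold cc
  have h1 : funMap (MulAut.conj g) ψ 1 = ψ 1 := by
    show ψ ((MulAut.conj g)⁻¹ 1) = ψ 1
    rw [map_one]
  rw [h1]
  congr 1
  rw [← finsum_comp_equiv (MulAut.conj g).toEquiv (f := fun x => f x * funMap (MulAut.conj g) ψ x)]
  refine finsum_congr fun x => ?_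
  show f (g * x * g⁻¹) * ψ ((MulAut.conj g)⁻¹ (MulAut.conj g x)) = _
  rw [hf, MulAut.inv_apply_self]

/-- row ob:CNJ -/
theorem CNJ (hNM : NM_stmt) (hIF : IF_stmt) (hIRF : IRF_stmt) (hIM : IM_stmt) : CNJ_stmt := by
  intro G _ _ g C
  have hb := CNJ_bij hNM hIF G g C
  refine ⟨?_, ?_⟩
  · intro f₁ f₂ h₁ h₂ F
    refine (finsum_mem_eq_of_bijOn (funMap (MulAut.conj g)) hb ?_).symm
    intro ψ _
    rw [CNJ_cc G g ψ f₁ h₁, CNJ_cc G g ψ f₂ h₂]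
  · intro M χ hχ
    have h1 : funMap (MulAut.conj g) χ = χ := by
      funext x
      have h2 : (MulAut.conj g)⁻¹ x = g⁻¹ * x * g⁻¹⁻¹ := by
        rw [← map_inv]
        rfl
      show χ ((MulAut.conj g)⁻¹ x) = χ x
      rw [h2]
      exact ((hIRF G).2 χ hχ).2.1 x g⁻¹
    have h2 : ∀ ψ : G → ℂ, Induces M (funMap (MulAut.conj g) ψ) χ ↔ Induces M ψ χ := by
      intro ψ
      have h3 := (hIM G M ψ χ χ).2.2.2 (MulAut.conj g)
      rwa [h1] at h3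
    have h3 : Set.BijOn (funMap (MulAut.conj g)) {ψ : G → ℂ | ψ ∈ IrrOn (nrm C) ∧ Induces M ψ χ}
        {ψ : G → ℂ | ψ ∈ IrrOn (nrm (chainMap (MulAut.conj g) C)) ∧ Induces M ψ χ} := by
      refine ⟨?_, ?_, ?_⟩
      · rintro ψ ⟨h4, h5⟩
        exact ⟨hb.mapsTo h4, (h2 ψ).2 h5⟩
      · rintro ψ ⟨h4, _⟩ φ ⟨h5, _⟩ h6
        exact hb.injOn h4 h5 h6
      · rintro φ ⟨h4, h5⟩
        obtain ⟨ψ, h6, rfl⟩ := hb.surjOn h4
        exact ⟨ψ, ⟨h6, (h2 ψ).1 h5⟩, rfl⟩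
    exact (Nat.card_congr (h3.equiv _)).symm

end Pool.Agent.OB
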