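import Pool.Agent.helper38.OB.Spec

set_option autoImplicit false

namespace Pool.Agent.OB

open Finset

theorem EVU_pow (N k : ℕ) (hk : 1 ≤ k) :
    (((N ^ 2 : ℕ) : ℝ)) ^ ((1 : ℝ) / (((2 * k : ℕ) : ℝ))) = (N : ℝ) ^ ((1 : ℝ) / (k : ℝ)) := by
  have hk' : (0 : ℝ) < k := by exact_mod_cast hk
  have h0 : (0 : ℝ) ≤ N := Nat.cast_nonneg N
  rw [Nat.cast_pow, ← Real.rpow_natCast (N : ℝ) 2, ← Real.rpow_mul h0]
  congr 1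
  push_cast
  field_simp

theorem EVU_term (N k j : ℕ) (hk : 1 ≤ k) (hN : 1 ≤ N) (hj : j ≤ k) (f q C1 C3 : ℝ) (hf : 0 ≤ f) (hC1 : 0 ≤ C1) (hC3 : 0 ≤ C3)
    (h1 : f ≤ C1 * (N : ℝ) ^ ((1 : ℝ) / (k : ℝ))) (h2 : q ≤ C3 * (N : ℝ) ^ ((j : ℝ) / (k : ℝ))) :
    f ^ (k - j) * q ≤ C1 ^ (k - j) * C3 * N := by
  have hk' : (0 : ℝ) < k := by exact_mod_cast hk
  have hN' : (0 : ℝ) < N := by exact_mod_cast hN
  have h3 : f ^ (k - j) ≤ C1 ^ (k - j) * (N : ℝ) ^ (((k - j : ℕ) : ℝ) / (k : ℝ)) := by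
    calc f ^ (k - j) ≤ (C1 * (N : ℝ) ^ ((1 : ℝ) / (k : ℝ))) ^ (k - j) := pow_le_pow_left₀ hf h1 _
      _ = C1 ^ (k - j) * (N : ℝ) ^ (((k - j : ℕ) : ℝ) / (k : ℝ)) := by
        rw [mul_pow, ← Real.rpow_natCast ((N : ℝ) ^ ((1 : ℝ) / (k : ℝ))) (k - j), ← Real.rpow_mul hN'.le]
        congr 2
        rw [div_mul_eq_mul_div, one_mul]
  have h4 : (0 : ℝ) ≤ C1 ^ (k - j) * (N : ℝ) ^ (((k - j : ℕ) : ℝ) / (k : ℝ)) := by positivity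
  calc f ^ (k - j) * q ≤ f ^ (k - j) * (C3 * (N : ℝ) ^ ((j : ℝ) / (k : ℝ))) :=
        mul_le_mul_of_nonneg_left h2 (pow_nonneg hf _)
    _ ≤ (C1 ^ (k - j) * (N : ℝ) ^ (((k - j : ℕ) : ℝ) / (k : ℝ))) * (C3 * (N : ℝ) ^ ((j : ℝ) / (k : ℝ))) :=
        mul_le_mul_of_nonneg_right h3 (by positivity)
    _ = C1 ^ (k - j) * C3 * ((N : ℝ) ^ (((k - j : ℕ) : ℝ) / (k : ℝ)) * (N : ℝ) ^ ((j : ℝ) / (k : ℝ))) := by ring
    _ = C1 ^ (k - j) * C3 * N := by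
        rw [← Real.rpow_add hN', ← add_div, Nat.cast_sub hj, sub_add_cancel, div_self hk'.ne', Real.rpow_one]

theorem EVU (hUPA : UPA_stmt) (hQJB : QJB_stmt) (hMAT : MAT_stmt) : EVU_stmt := by
  intro k hk A hA hD
  obtain ⟨C1, hC1, h1⟩ := hUPA (2 * k) (by omega) A hA
  obtain ⟨C2, h2⟩ := hMAT k
  have h3 : ∀ j : ℕ, ∃ C : ℝ, 0 < C ∧ (j ≤ k → ∀ N : ℕ, 1 ≤ N → (Qj A j N).Finite ∧
      ((Qj A j N).ncard : ℝ) ≤ C * (N : ℝ) ^ ((j : ℝ) / (k : ℝ))) := by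
    intro j
    by_cases hj : j ≤ k
    · obtain ⟨C, hC, h⟩ := hQJB k hk A hA hD j hj
      exact ⟨C, hC, fun _ => h⟩
    · exact ⟨1, one_pos, fun h => absurd h hj⟩
  choose C3 hC3 h3 using h3
  refine ⟨(C2 + 1) * ∑ j ∈ range (k + 1), C1 ^ (k - j) * C3 j, ?_, ?_⟩
  · refine mul_pos (by positivity) (Finset.sum_pos (fun j _ => mul_pos (pow_pos hC1 _) (hC3 j)) ⟨0, by simp⟩)
  · intro N hN
    have hfin : (A ∩ Set.Icc 1 (N ^ 2)).Finite := (Set.finite_Icc 1 (N ^ 2)).subset Set.inter_subset_right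
    have hF : ((hfin.toFinset : Finset ℕ) : Set ℕ) = A ∩ Set.Icc 1 (N ^ 2) := hfin.coe_toFinset
    have h4 := h2 hfin.toFinset N
    rw [hF, ← Set.ncard_eq_toFinset_card _ hfin] at h4
    have h5 : ((A ∩ Set.Icc 1 (N ^ 2)).ncard : ℝ) ≤ C1 * (N : ℝ) ^ ((1 : ℝ) / (k : ℝ)) := by
      have h6 := h1 (N ^ 2) (Nat.one_le_pow _ _ hN)
      rwa [EVU_pow N k hk] at h6
    have h6 : ∀ j ∈ range (k + 1), (((A ∩ Set.Icc 1 (N ^ 2)).ncard ^ (k - j) *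
        (Qj (A ∩ Set.Icc 1 (N ^ 2)) j N).ncard : ℕ) : ℝ) ≤ C1 ^ (k - j) * C3 j * N := by
      intro j hj
      have hj' : j ≤ k := Nat.lt_succ_iff.1 (Finset.mem_range.1 hj)
      obtain ⟨h7, h8⟩ := h3 j hj' N hN
      have h9 : ((Qj (A ∩ Set.Icc 1 (N ^ 2)) j N).ncard : ℝ) ≤ C3 j * (N : ℝ) ^ ((j : ℝ) / (k : ℝ)) := by
        refine le_trans ?_ h8
        have hsub : Qj (A ∩ Set.Icc 1 (N ^ 2)) j N ⊆ Qj A j N :=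
          fun p hp => ⟨fun i => (hp.1 i).1, fun i => (hp.2.1 i).1, hp.2.2⟩
        exact_mod_cast Set.ncard_le_ncard hsub h7
      push_cast
      exact EVU_term N k j hk hN hj' _ _ C1 (C3 j) (Nat.cast_nonneg _) hC1.le (hC3 j).le h5 h9
    have h7 : ((Pk (A ∩ Set.Icc 1 (N ^ 2)) k N).ncard : ℝ) ≤
        (C2 : ℝ) * ∑ j ∈ range (k + 1), (((A ∩ Set.Icc 1 (N ^ 2)).ncard ^ (k - j) *
          (Qj (A ∩ Set.Icc 1 (N ^ 2)) j N).ncard : ℕ) : ℝ) := by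
      have h8 : ((Pk (A ∩ Set.Icc 1 (N ^ 2)) k N).ncard : ℝ) ≤ ((C2 * ∑ j ∈ range (k + 1), ((A ∩ Set.Icc 1 (N ^ 2)).ncard ^ (k - j) *
          (Qj (A ∩ Set.Icc 1 (N ^ 2)) j N).ncard) : ℕ) : ℝ) := by exact_mod_cast h4
      refine h8.trans (le_of_eq ?_)
      push_cast
      rfl
    refine h7.trans ?_
    calc (C2 : ℝ) * ∑ j ∈ range (k + 1), (((A ∩ Set.Icc 1 (N ^ 2)).ncard ^ (k - j) *
          (Qj (A ∩ Set.Icc 1 (N ^ 2)) j N).ncard : ℕ) : ℝ) ≤ (C2 : ℝ) * ∑ j ∈ range (k + 1), C1 ^ (k - j) * C3 j * N :=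
          mul_le_mul_of_nonneg_left (Finset.sum_le_sum h6) (Nat.cast_nonneg _)
      _ = (C2 : ℝ) * (∑ j ∈ range (k + 1), C1 ^ (k - j) * C3 j) * N := by rw [← Finset.sum_mul, mul_assoc]
      _ ≤ ((C2 : ℝ) + 1) * (∑ j ∈ range (k + 1), C1 ^ (k - j) * C3 j) * N := by
          refine mul_le_mul_of_nonneg_right (mul_le_mul_of_nonneg_right (by linarith) ?_) (Nat.cast_nonneg _)
          exact Finset.sum_nonneg fun j _ => mul_nonneg (pow_nonneg hC1.le _) (hC3 j).le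

end Pool.Agent.OB
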