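import Pool.Agent.helper12.OB.SpecC

set_option autoImplicit false

namespace Pool.Agent.OB

open Pool.Agent.helper58.DC Pool.Agent.DI Pool.Agent.GR

/-- row ob:KRW -/
theorem KRW (hA7 : A7_stmt) (hA8 : A8_stmt) : KRW_stmt := by
  classical
  intro G _ _ p _ hOp K
  let g : Subgroup G → ℤ := fun H => if K ≤ H then 1 else 0
  have e1 : ∀ S : Set (Finset (Subgroup G)), ∑ᶠ C ∈ S, (-1 : ℤ) ^ (C.card + 1) * g (⊤ ⊓ nrm C) =
      ∑ᶠ C ∈ {C : Finset (Subgroup G) | C ∈ S ∧ K ≤ nrm C}, (-1 : ℤ) ^ (C.card + 1) := by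
    intro S
    rw [finsum_mem_def, finsum_mem_def]
    refine finsum_congr fun C => ?_
    rw [Set.indicator_apply, Set.indicator_apply]
    have h1 : g (⊤ ⊓ nrm C) = if K ≤ nrm C then 1 else 0 := by
      show (if K ≤ ⊤ ⊓ nrm C then (1 : ℤ) else 0) = _
      rw [top_inf_eq]
    rw [h1]
    by_cases h2 : C ∈ S <;> by_cases h3 : K ≤ nrm C <;> simp [h2, h3]
  have h7 := hA7 G p (⊤ : Subgroup G) ⊥ ⊤ g hOp (by
    intro x _
    rw [Subgroup.mem_normalizer_iff]
    simp)
  have h8 := hA8 G G p (MonoidHom.id G) Function.injective_id (⊤ : Subgroup G) g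
  have hr : (MonoidHom.id G).range = ⊤ := MonoidHom.range_eq_top.2 Function.surjective_id
  have hc : ∀ C : Finset (Subgroup G), cmap (MonoidHom.id G) C = C := by
    intro C
    unfold cmap
    conv_rhs => rw [← Finset.image_id (s := C)]
    refine Finset.image_congr fun P _ => ?_
    exact Subgroup.map_id P
  simp only [hc] at h8
  rw [hr, h7] at h8
  have h9 := e1 {C : Finset (Subgroup G) | IsRadical p C}
  rw [h8] at h9
  have h10 : cSum p (⊤ : Subgroup G) ⊥ ⊤ g = W p K := by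
    unfold cSum
    exact e1 {C : Finset (Subgroup G) | PCh p ⊤ ⊥ C}
  rw [← h10]
  exact h9

end Pool.Agent.OB
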