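import Pool.Agent.helper12.OB.SpecC

set_option autoImplicit false

namespace Pool.Agent.OB

open Pool.Agent.helper58.DC Pool.Agent.DI Pool.Agent.GR

/-- row ob:MOP -/
theorem MOP : MOP_stmt := by
  classical
  intro A _ _ m a h U
  have : Fintype (Subgroup A) := Fintype.ofFinite _
  refine WellFoundedGT.induction (motive := fun U => m ∣ a U) U ?_
  intro U ih
  have h1 := h U
  rw [finsum_eq_sum_of_fintype, ← Finset.add_sum_erase Finset.univ (fun V : {V : Subgroup A // U ≤ V} => a V.1)
    (Finset.mem_univ ⟨U, le_rfl⟩)] at h1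
  refine (dvd_add_left ?_).1 h1
  refine Finset.dvd_sum fun V hV => ?_
  refine ih V.1 ?_
  refine lt_of_le_of_ne V.2 fun h2 => ?_
  exact (Finset.mem_erase.1 hV).1 (Subtype.ext h2.symm)

end Pool.Agent.OB
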