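import Pool.Agent.helper12.OB.SpecC

set_option autoImplicit false

namespace Pool.Agent.OB

open Pool.Agent.helper58.DC Pool.Agent.DI Pool.Agent.GR

/-- row ob:PGA -/
theorem PGA (hMOP : MOP_stmt) (hPGS : PGS_stmt) (hRE : RE_stmt) (hST : ST_stmt) (hFN : FN_stmt) : PGA_stmt := by
  classical
  intro p _ M G E A _ _ _ _ _ X hA χ hχ hdvd
  haveI : Finite A := Finite.of_surjective X.proj X.proj_surjective
  refine hMOP A (p : ℤ) (fun V => ∑ᶠ d : ℤ, altSum X p M χ d V) ?_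
  intro U
  have h1 : ∑ᶠ V : {V : Subgroup A // U ≤ V}, ∑ᶠ d : ℤ, altSum X p M χ d V.1 =
      ∑ᶠ d : ℤ, altSum (resE X U) p M χ d ⊤ := by
    have : Fintype {V : Subgroup A // U ≤ V} := Fintype.ofFinite _
    rw [finsum_eq_sum_of_fintype, ← finsum_sum_comm]
    · refine finsum_congr fun d => ?_
      rw [hRE G E A X p M χ hχ d U, finsum_eq_sum_of_fintype]
    · intro V _
      exact hFN G E A X p M χ V.1
  show (p : ℤ) ∣ ∑ᶠ V : {V : Subgroup A // U ≤ V}, ∑ᶠ d : ℤ, altSum X p M χ d V.1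
  rw [h1]
  by_cases h2 : ∀ d : ℤ, altSum (resE X U) p M χ d ⊤ = 0
  · rw [finsum_congr h2, finsum_zero]
    exact dvd_zero _
  · push_neg at h2
    obtain ⟨d, hd⟩ := h2
    have h3 : Stable (resE X U) M χ := hST G _ U (resE X U) p M χ hχ d hd
    have hU : IsPGroup p U := hA.to_subgroup U
    have h4 := hPGS p M G _ U (resE X U) hU χ hχ h3
    have h5 := dvd_add h4 hdvd
    rwa [sub_add_cancel] at h5

end Pool.Agent.OB
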