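import Pool.Agent.helper12.OB.SpecC

set_option autoImplicit false

namespace Pool.Agent.OB

open Pool.Agent.helper58.DC Pool.Agent.DI Pool.Agent.GR

/-- row ob:PGS -/
theorem PGS (hCL0 : CL0_stmt) (hCL1 : CL1_stmt) (hMB : MB_stmt) (hTOA : TOA_stmt) (hPGF : PGF_stmt) : PGS_stmt := by
  classical
  intro p _ M G E A _ _ _ _ _ _ X hA χ hχ hst
  obtain ⟨S, cls, hcls⟩ := hCL0 G E A X p M χ hχ hst
  have h1 : ∀ d U, altSum X p M χ d U = S.num d U := hCL1 G E A X p M χ hχ hst S cls hcls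
  have h2 : ∀ d, S.fix d ⊤ = S.num d ⊤ := by
    intro d
    rw [hMB A S d ⊤]
    let u : {V : Subgroup A // ⊤ ≤ V} := ⟨⊤, le_rfl⟩
    have h3 : ∀ V : {V : Subgroup A // ⊤ ≤ V}, V ≠ u → S.num d V.1 = 0 := by
      intro V hV
      exact absurd (Subtype.ext (top_le_iff.1 V.2)) hV
    exact finsum_eq_single (fun V : {V : Subgroup A // ⊤ ≤ V} => S.num d V.1) u h3
  have h3 : ∀ d, S.fix d ⊥ = ∑ᶠ V : Subgroup A, S.num d V := by
    intro d
    rw [hMB A S d ⊥]
    let e : {V : Subgroup A // ⊥ ≤ V} ≃ Subgroup A :=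
      { toFun := fun U => U.1
        invFun := fun U => ⟨U, bot_le⟩
        left_inv := fun U => rfl
        right_inv := fun U => rfl }
    exact finsum_comp_equiv e (f := fun V => S.num d V)
  have h4 := hPGF p A hA S
  rw [hTOA G E A X p M χ]
  simp only [h1, ← h3, ← h2]
  exact h4

end Pool.Agent.OB
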