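import Pool.Agent.helper12.OB.SpecC

set_option autoImplicit false

namespace Pool.Agent.OB

open Pool.Agent.helper58.DC Pool.Agent.DI Pool.Agent.GR

/-- row ob:RDZ -/
theorem RDZ (hB2 : B2_stmt) (hA13 : A13_stmt) (hC11 : C11_stmt) (hC14 : C14_stmt) (hTI : TI_stmt)
    (hIM : IM_stmt) : RDZ_stmt := by
  classical
  intro p M hS G _ _ χ hχ hpos C hC ψ hψ
  haveI : Fact p.Prime := ⟨hS.pr⟩
  obtain ⟨n, hn0, hn1, hn2⟩ := ((hB2 G (nrm C)).2 ψ hψ).1
  have hle : padicValNat p n ≤ padicValNat p (Nat.card (nrm C)) := by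
    obtain ⟨k, hk⟩ := hn2
    have hk0 : k ≠ 0 := by
      rintro rfl
      rw [mul_zero] at hk
      exact Nat.card_pos.ne' hk
    rw [hk, padicValNat.mul hn0.ne' hk0]
    exact Nat.le_add_right _ _
  refine ⟨(padicValNat p (Nat.card (nrm C)) : ℤ) - padicValNat p n, ⟨n, hn1, rfl⟩, ?_⟩
  by_cases hd : 1 ≤ (padicValNat p (Nat.card (nrm C)) : ℤ) - padicValNat p n
  · exact Or.inl hd
  · refine Or.inr fun hind => ?_
    have hd0 : (padicValNat p (Nat.card (nrm C)) : ℤ) - padicValNat p n = 0 := by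
      have : (padicValNat p n : ℤ) ≤ padicValNat p (Nat.card (nrm C)) := by exact_mod_cast hle
      omega
    have hdef : Defect p (nrm C) ψ 0 := ⟨n, hn1, hd0.symm⟩
    obtain ⟨P, hP, hPl, hPp, hPn, hnP, -⟩ := hA13 G p C hC
    have hP0 : P = ⊥ := hC14 G p M hS.max hS.mem (nrm C) P hPn hnP hPp ψ hψ hdef
    have htop : nrm C = ⊤ := by
      rw [eq_top_iff]
      unfold nrm
      refine le_iInf fun Q => le_iInf fun hQ => ?_
      have h1 : Q = ⊥ := by
        have := hPl Q hQ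
        rw [hP0] at this
        exact le_bot_iff.1 this
      rw [h1]
      intro x _
      rw [Subgroup.mem_normalizer_iff]
      intro h
      simp
    rw [htop] at hψ hdef
    have hψ' : ψ ∈ Irr G := (hTI G ψ).1 hψ
    obtain ⟨χ', hχ', hi, d, hd1, hd2⟩ := hpos
    have h1 : Induces M χ ψ := (hIM G M ψ χ ψ).2.1 hind
    have h2 : Induces M χ' ψ := (hIM G M χ' χ ψ).2.2.1 hi h1
    have h3 : χ' = ψ := hC11 G p M hS.max hS.mem χ' hχ' ψ hψ' hdef h2
    obtain ⟨a, ha, ha2⟩ := hd2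
    obtain ⟨b, hb, hb2⟩ := hdef
    rw [h3, hb] at ha
    have h4 : b = a := by exact_mod_cast ha
    rw [h4] at hb2
    rw [← hb2] at ha2
    omega

end Pool.Agent.OB
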