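import Pool.Agent.helper12.OB.SpecC

set_option autoImplicit false

namespace Pool.Agent.OB

open Pool.Agent.helper58.DC Pool.Agent.DI Pool.Agent.GR

/-- row ob:TOA -/
theorem TOA (hTOT : TOT_stmt) : TOA_stmt := by
  classical
  intro G E A _ _ _ _ _ X p M χ
  have h1 := hTOT G E A X p M χ 1
  have h2 : galSum X p M χ 1 (RingEquiv.refl ℂ) = aB p M χ := by
    unfold galSum aB
    refine finsum_congr fun c => ?_
    congr 2
    unfold galCount
    refine Nat.card_congr (Equiv.subtypeEquivRight fun ψ => ?_)
    constructor
    · rintro ⟨h3, h4, -⟩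
      exact ⟨h3, h4⟩
    · rintro ⟨h3, h4⟩
      refine ⟨h3, h4, 1, map_one _, ?_, ?_⟩
      · unfold chainMap
        rw [map_one]
        conv_rhs => rw [← Finset.image_id (s := c.out.1)]
        refine Finset.image_congr fun P _ => ?_
        exact Subgroup.map_id P
      · funext g
        rw [map_one]
        simp [funMap, galMap]
  have h3 : dadeSum X p M χ 1 = ∑ᶠ d : ℤ, ∑ᶠ V : Subgroup A, altSum X p M χ d V := by
    unfold dadeSum
    refine finsum_congr fun d => ?_
    let e : {U : Subgroup A // (1 : A) ∈ U} ≃ Subgroup A :=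
      { toFun := fun U => U.1
        invFun := fun U => ⟨U, U.one_mem⟩
        left_inv := fun U => rfl
        right_inv := fun U => rfl }
    exact finsum_comp_equiv e (f := fun V => altSum X p M χ d V)
  rw [← h2, h1, h3]

end Pool.Agent.OB
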